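import Pool.Agent.Helper77.PPB.Goals2
import Pool.Agent.Helper79.PP.PVIS
import Pool.Agent.Helper35.RD.RSP

set_option autoImplicit false

/-!
# Project PPB (MP_fc6b1e_nt), packet PPB-B_SWT: the tower `K ⊆ M, K(ε) ⊆ M(ε)` for all `M`
-/

namespace Pool.Agent.Helper74.PPB

open NumberField Polynomial Module IsDedekindDomain Pool.Agent.Helper51.SigLeo
open Pool.Agent.Helper51.RP Pool.Agent.Helper42.RD Pool.Agent.Helper11.LE
open Pool.Agent.Helper42.PP1 (SitW)
open Pool.Agent.Helper40.RS (bel gw absNorm_free val_smul)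
open Pool.Agent.Helper40.RD (bel_of_above valW)
open Pool.Agent.Helper79.PP (free_bel fix_of_free dvd_norm)

/-- The visible primes, as in `p_vis`. -/
theorem vis_of (p : ℕ) [Fact p.Prime] (K M K₁ M₁ : Type) [Field K] [NumberField K] [Field M]
    [NumberField M] [Field K₁] [NumberField K₁] [Field M₁] [NumberField M₁] [Algebra K M]
    [Algebra K K₁] [Algebra K M₁] [Algebra M M₁] [Algebra K₁ M₁] [IsScalarTower K M M₁]
    [IsScalarTower K K₁ M₁] [IsGalois K M] [IsGalois K K₁] [IsGalois K M₁] (ε : K₁)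
    (prim : IsPrimitiveRoot ε p)
    (lin : ∀ g : M₁ ≃ₐ[K] M₁, (∀ x : M, g (algebraMap M M₁ x) = algebraMap M M₁ x) →
      (∀ x : K₁, g (algebraMap K₁ M₁ x) = algebraMap K₁ M₁ x) → g = 1)
    (v : HeightOneSpectrum (𝓞 K)) (hv : v.valuation K (p : K) = 1) :
    (∀ W : HeightOneSpectrum (𝓞 M₁), Above W v → FreeP K W →
      Ideal.absNorm W.asIdeal = Ideal.absNorm v.asIdeal ∧
      (∀ w : HeightOneSpectrum (𝓞 M), Above W w → FreeP K w ∧
        Ideal.absNorm w.asIdeal = Ideal.absNorm v.asIdeal ∧ Above w v) ∧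
      ∀ Q : HeightOneSpectrum (𝓞 K₁), Above W Q → FreeP K Q ∧
        Ideal.absNorm Q.asIdeal = Ideal.absNorm v.asIdeal ∧ Above Q v) ∧
    (∀ (w : HeightOneSpectrum (𝓞 M)) (Q : HeightOneSpectrum (𝓞 K₁))
      (W : HeightOneSpectrum (𝓞 M₁)),
      Above w v → Above Q v → Above W v → FreeP K w → FreeP K Q → FreeP K W) ∧
    ∀ Q : HeightOneSpectrum (𝓞 K₁), Above Q v → FreeP K Q →
      Ideal.absNorm Q.asIdeal = Ideal.absNorm v.asIdeal ∧ p ∣ Ideal.absNorm v.asIdeal - 1 := by
  refine ⟨?_, ?_, ?_⟩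
  · intro W hWv hW
    have hb : bel K W = v := bel_of_above hWv
    have hnorm : Ideal.absNorm W.asIdeal = Ideal.absNorm v.asIdeal := by
      rw [← hb]
      exact absNorm_free W hW
    refine ⟨hnorm, ?_, ?_⟩
    · intro w hw
      obtain rfl := bel_of_above hw
      have hf : FreeP K (bel M W) := free_bel W hW
      have hb2 : bel K (bel M W) = v := (bel_bel W).trans hb
      refine ⟨hf, ?_, ?_⟩
      · have h := absNorm_free (K := K) (bel M W) hf
        rw [h, hb2]
      · exact congrArg HeightOneSpectrum.asIdeal hb2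
    · intro Q hQ
      obtain rfl := bel_of_above hQ
      have hf : FreeP K (bel K₁ W) := free_bel W hW
      have hb2 : bel K (bel K₁ W) = v := (bel_bel W).trans hb
      refine ⟨hf, ?_, ?_⟩
      · have h := absNorm_free (K := K) (bel K₁ W) hf
        rw [h, hb2]
      · exact congrArg HeightOneSpectrum.asIdeal hb2
  · intro w Q W hw hQ hW hfw hfQ
    have hb : bel K W = v := bel_of_above hW
    have h1 : FreeP K (bel M W) := by
      refine free_of_conj (v := w) (conj_of_bel' ?_) hfw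
      rw [bel_bel W, hb, bel_of_above hw]
    have h2 : FreeP K (bel K₁ W) := by
      refine free_of_conj (v := Q) (conj_of_bel' ?_) hfQ
      rw [bel_bel W, hb, bel_of_above hQ]
    intro g hg
    exact lin g (fix_of_free W h1 g hg) (fix_of_free W h2 g hg)
  · intro Q hQ hfQ
    have hb : bel K Q = v := bel_of_above hQ
    have hnorm : Ideal.absNorm Q.asIdeal = Ideal.absNorm v.asIdeal := by
      rw [← hb]
      exact absNorm_free Q hfQ
    refine ⟨hnorm, ?_⟩
    rw [← hnorm]
    apply dvd_norm prim Q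
    have h := valW (M := K) Q (p : K)
    rw [hb, hv, one_pow, map_natCast] at h
    exact h

theorem b_swt : Pool.Agent.Helper77.PPB.B_SWT := by
  intro p hpF K _ _ M _ _ hcop ε hε δ P hord hirr hdvd hnsp
  have hp : p.Prime := hpF.out
  have hpne : NeZero p := ⟨hp.ne_zero⟩
  have hMfin : FiniteDimensional K M := Module.Finite.of_restrictScalars_finite ℚ K M
  have hMnorm : Normal K M := inferInstance
  set K₁ : IntermediateField K (AlgebraicClosure K) := IntermediateField.adjoin K {ε} with hK₁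
  have hεmem : ε ∈ K₁ := IntermediateField.mem_adjoin_simple_self K ε
  have hK₁fin : FiniteDimensional K K₁ :=
    IntermediateField.adjoin.finiteDimensional (Algebra.IsIntegral.isIntegral ε)
  have hcyc : IsCyclotomicExtension {p} K K₁ :=
    hε.intermediateField_adjoin_isCyclotomicExtension (K := K)
  have hK₁gal : IsGalois K K₁ := IsCyclotomicExtension.isGalois {p} K K₁
  set M₁ : IntermediateField K (AlgebraicClosure K) := M ⊔ K₁ with hM₁
  have hMM₁ : M ≤ M₁ := le_sup_left
  have hKM₁ : K₁ ≤ M₁ := le_sup_right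
  have hM₁fin : FiniteDimensional K M₁ := IntermediateField.finiteDimensional_sup M K₁
  have hnfK₁ : NumberField K₁ := NumberField.of_module_finite K K₁
  have hnfM₁ : NumberField M₁ := NumberField.of_module_finite K M₁
  let A1 : Algebra M M₁ := (IntermediateField.inclusion hMM₁).toRingHom.toAlgebra
  let A2 : Algebra K₁ M₁ := (IntermediateField.inclusion hKM₁).toRingHom.toAlgebra
  have ht1 : IsScalarTower K M M₁ := IsScalarTower.of_algebraMap_eq fun x => rfl
  have ht2 : IsScalarTower K K₁ M₁ := IsScalarTower.of_algebraMap_eq fun x => rfl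
  have hM₁norm : Normal K M₁ := by rw [hM₁]; infer_instance
  have hM₁gal : IsGalois K M₁ := ⟨⟩
  set ε₁ : K₁ := ⟨ε, hεmem⟩ with hε₁
  have hε₁p : IsPrimitiveRoot ε₁ p :=
    IsPrimitiveRoot.of_map_of_injective (f := K₁.val) hε K₁.val.injective
  have hgen : ∀ σ : K₁ ≃ₐ[K] K₁, σ ε₁ = ε₁ → σ = 1 := by
    intro σ hσ
    apply AlgEquiv.coe_toAlgHom_injective
    apply IntermediateField.adjoin_algHom_ext
    intro x hx
    obtain rfl := Set.mem_singleton_iff.1 hx
    exact hσ
  have hlin : ∀ g : M₁ ≃ₐ[K] M₁, (∀ x : M, g (algebraMap M M₁ x) = algebraMap M M₁ x) →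
      (∀ x : K₁, g (algebraMap K₁ M₁ x) = algebraMap K₁ M₁ x) → g = 1 := by
    intro g g1 g2
    apply Pool.Agent.Helper35.RD.eq_one_of_sup M K₁ g
    · intro x hx
      have : x = algebraMap M M₁ ⟨x, hx⟩ := rfl
      rw [this, g1]
    · intro x hx
      have : x = algebraMap K₁ M₁ ⟨x, hx⟩ := rfl
      rw [this, g2]
  have hG1 : IsGalois M M₁ := IsGalois.tower_top_of_isGalois K M M₁
  have hG2 : IsGalois K₁ M₁ := IsGalois.tower_top_of_isGalois K K₁ M₁
  have hF1 : FiniteDimensional M M₁ := FiniteDimensional.right K M M₁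
  have hF2 : FiniteDimensional K₁ M₁ := FiniteDimensional.right K K₁ M₁
  have hd1 : finrank M M₁ ∣ finrank K K₁ := Pool.Agent.Helper14.RD.finrank_dvd K M K₁ M₁ hlin
  have hd2 : finrank K₁ M₁ ∣ finrank K M :=
    Pool.Agent.Helper14.RD.finrank_dvd K K₁ M M₁ (fun g h1 h2 => hlin g h2 h1)
  have hd3 : finrank K K₁ ∣ p - 1 :=
    Pool.Agent.Helper14.RD.finrank_dvd_pred p K K₁ ε₁ hε₁p hgen
  have hc1 : (p - 1).Coprime p := by
    have h := hp.one_lt
    have h2 : (p - 1).Coprime (p - 1 + 1) := by simp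
    rwa [Nat.sub_add_cancel h.le] at h2
  refine ⟨K₁, M₁, hnfK₁, hnfM₁, A1, A2, ε₁, ht1, ht2, fun x => rfl, fun x => rfl, rfl, rfl, rfl,
    ⟨hε₁p, hK₁gal, hgen⟩, ?_⟩
  exact
    { st1 := ht1
      st2 := ht2
      gM := inferInstance
      gK := hK₁gal
      gMK := hM₁gal
      prim := hε₁p
      gen := hgen
      lin := hlin
      ord := hord
      irr := hirr
      dvdP := hdvd
      copm := hcop
      c1 := Nat.Coprime.coprime_dvd_left (hd1.trans hd3) hc1
      c2 := Nat.Coprime.coprime_dvd_left hd2 hcop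
      nsp := hnsp
      vis := fun v hv => vis_of p K M K₁ M₁ ε₁ hε₁p hlin v hv }

end Pool.Agent.Helper74.PPB
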